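import Mathlib
import Pool.Agent.X124.TorusExample

/-!
# MP_f446af_nt, Q1: the answer is yes

`m = 2`, `n = 1`. With `Q_k = 2^(3^k)`, `α = ∑ 1/Q_k`, `δ_k = Q_k α - p_k` (`p_k` the nearest
integer) and `β = ∑ δ_k` the vector `A = (α, β)` is non-singular, all points `(0, t)`, `t ≠ 0`, of
the circle `{0} × 𝕋` are badly approximable targets for `A`, and the point `(0, 0)` is not.
-/

namespace Pool.Agent.Results.MP_f446af_nt.SupportNotContained

open MeasureTheory Pool.Agent.X124.TorusDefs Pool.Agent.X124.TorusExample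

/-- **The answer to Q1 is yes.**  There are a non-singular `2 × 1` matrix `A` and a one-dimensional
algebraic measure `μ`, the Haar measure of a coset `x + H`, such that `μ(Bad_A) > 0` (indeed the
complement of `Bad_A` is a null set for `μ`), while `x + H` is not contained in `Bad_A`. -/
theorem result :
    ∃ (A : Matrix (Fin 2) (Fin 1) ℝ) (μ : Measure (Torus 2)) (x : Torus 2)
      (H : AddSubgroup (Torus 2)), ¬ Singular A ∧ IsSubtorus H 1 ∧ IsHaarOnCoset μ x H ∧
        0 < μ (Bad A) ∧ μ (Bad A)ᶜ = 0 ∧ ¬ {y | y - x ∈ H} ⊆ Bad A := by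
  have h := haarAt_isHaar 0
  refine ⟨A, haarAt 0, ![0, 0], vert, nonsingular, vert_subtorus, h, ?_, haarAt_zero_bad, ?_⟩
  · have hp := h.prob
    by_contra h0
    have h1 : haarAt 0 (Bad A) = 0 := le_antisymm (not_lt.1 h0) zero_le
    have h2 : haarAt 0 Set.univ ≤ haarAt 0 (Bad A) + haarAt 0 (Bad A)ᶜ := by
      rw [← Set.union_compl_self (Bad A)]
      exact measure_union_le _ _
    rw [h1, haarAt_zero_bad, hp.measure_univ, add_zero] at h2
    exact absurd h2 (by simp)
  · intro hsub
    apply zero_not_bad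
    apply hsub
    change (![0, 0] : Torus 2) - ![0, 0] ∈ vert
    rw [sub_self]
    exact vert.zero_mem

end Pool.Agent.Results.MP_f446af_nt.SupportNotContained
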